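import Mathlib

/-!
# Neighbor-locating chromatic number and paths of the same diameter (MP_fdbc88_co)

A connected graph on 26 vertices of diameter 24 with a neighbor-locating colouring with 4 colours,
whereas the path on 25 vertices needs at least 5 colours.
-/

namespace Pool.Agent.Results.MP_fdbc88_co.DiameterTwentyFour

/-- `c` is a neighbor-locating colouring of `G`: it is proper, and two distinct vertices with the
same colour have different colour-neighbourhoods. -/
def IsNL {V α : Type*} (G : SimpleGraph V) (c : V → α) : Prop :=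
  (∀ u v, G.Adj u v → c u ≠ c v) ∧
    ∀ u v, u ≠ v → c u = c v → c '' G.neighborSet u ≠ c '' G.neighborSet v

/-- `G` has a neighbor-locating colouring with (at most) `k` colours. -/
def NLColorable {V : Type*} (G : SimpleGraph V) (k : ℕ) : Prop :=
  ∃ c : V → Fin k, IsNL G c

/-- The neighbor-locating chromatic number. -/
noncomputable def chiNL {V : Type*} (G : SimpleGraph V) : ℕ :=
  sInf {k : ℕ | NLColorable G k}

/-- The example: the path `0, 1, ..., 24` together with a vertex `25` adjacent to `12, 13, 14`. -/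
def G26 : SimpleGraph (Fin 26) where
  Adj a b := (a.val + 1 = b.val ∧ b.val ≤ 24) ∨ (b.val + 1 = a.val ∧ a.val ≤ 24) ∨
    (a.val = 25 ∧ 12 ≤ b.val ∧ b.val ≤ 14) ∨ (b.val = 25 ∧ 12 ≤ a.val ∧ a.val ≤ 14)
  symm := ⟨fun _ _ h => by omega⟩
  loopless := ⟨fun a h => by omega⟩

theorem adj_iff (a b : Fin 26) : G26.Adj a b ↔
    ((a.val + 1 = b.val ∧ b.val ≤ 24) ∨ (b.val + 1 = a.val ∧ a.val ≤ 24) ∨
    (a.val = 25 ∧ 12 ≤ b.val ∧ b.val ≤ 14) ∨ (b.val = 25 ∧ 12 ≤ a.val ∧ a.val ≤ 14)) := Iff.rfl

instance : DecidableRel G26.Adj := fun a b =>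
  inferInstanceAs (Decidable (_ ∨ _ ∨ _ ∨ _))

theorem isNL_of {V α : Type*} (G : SimpleGraph V) (c : V → α)
    (h1 : ∀ u v, G.Adj u v → c u ≠ c v)
    (h2 : ∀ u v, u ≠ v → c u = c v →
      ∃ x, ¬ ((∃ w, G.Adj u w ∧ c w = x) ↔ (∃ w, G.Adj v w ∧ c w = x))) : IsNL G c := by
  refine ⟨h1, fun u v huv hc he => ?_⟩
  obtain ⟨x, hx⟩ := h2 u v huv hc
  apply hx
  have := Set.ext_iff.1 he x
  simpa [Set.mem_image, SimpleGraph.mem_neighborSet] using this

def c26 : Fin 26 → Fin 4 :=
  ![0,2,0,1,3,1,2,3,0,3,0,2,3,1,2,1,2,1,0,1,0,3,1,3,2,0]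

theorem nl4 : NLColorable G26 4 :=
  ⟨c26, isNL_of _ _ (by decide +kernel) (by decide +kernel)⟩

theorem mono {V : Type*} {G : SimpleGraph V} {k l : ℕ} (hkl : k ≤ l) (h : NLColorable G k) :
    NLColorable G l := by
  obtain ⟨c, h1, h2⟩ := h
  refine ⟨fun v => Fin.castLE hkl (c v), fun u v huv h => h1 u v huv
    (Fin.castLE_injective hkl h), fun u v huv hc he => ?_⟩
  refine h2 u v huv (Fin.castLE_injective hkl hc) ?_
  have e : ∀ t, (fun v => Fin.castLE hkl (c v)) '' G.neighborSet t =
      Fin.castLE hkl '' (c '' G.neighborSet t) := fun t => by rw [Set.image_image]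
  rw [e, e] at he
  exact (Set.image_injective.2 (Fin.castLE_injective hkl)) he

/-- position along the path -/
def pos (v : Fin 26) : ℕ := if v.val = 25 then 13 else v.val

theorem pos_adj {a b : Fin 26} (h : G26.Adj a b) : pos b ≤ pos a + 1 := by
  rw [adj_iff] at h
  unfold pos
  split_ifs <;> omega

theorem walk_pos {a b : Fin 26} (p : G26.Walk a b) : pos b ≤ pos a + p.length := by
  induction p with
  | nil => simp
  | cons h p ih =>
    have := pos_adj h
    rw [SimpleGraph.Walk.length_cons]
    omega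

theorem walk_path (i : ℕ) (hi : i ≤ 24) (n : ℕ) (h : i + n ≤ 24) :
    ∃ p : G26.Walk ⟨i, by omega⟩ ⟨i + n, by omega⟩, p.length = n := by
  induction n with
  | zero => exact ⟨SimpleGraph.Walk.nil, rfl⟩
  | succ n ih =>
    obtain ⟨p, hp⟩ := ih (by omega)
    have hadj : G26.Adj ⟨i + n, by omega⟩ ⟨i + (n + 1), by omega⟩ := by
      rw [adj_iff]
      left
      constructor
      · show i + n + 1 = i + (n + 1)
        omega
      · show i + (n + 1) ≤ 24
        omega
    refine ⟨p.concat hadj, ?_⟩
    rw [SimpleGraph.Walk.length_concat, hp]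

theorem edist_path {i j : ℕ} (hij : i ≤ j) (hj : j ≤ 24) :
    G26.edist ⟨i, by omega⟩ ⟨j, by omega⟩ ≤ ((j - i : ℕ) : ℕ∞) := by
  obtain ⟨p, hp⟩ := walk_path i (by omega) (j - i) (by omega)
  have e : (⟨i + (j - i), by omega⟩ : Fin 26) = ⟨j, by omega⟩ := by
    apply Fin.ext
    show i + (j - i) = j
    omega
  have := G26.edist_le p
  rw [hp] at this
  rw [← e]
  exact this

theorem edist_path' (a b : Fin 26) (ha : a.val ≤ 24) (hb : b.val ≤ 24) :
    G26.edist a b ≤ ((max a.val b.val - min a.val b.val : ℕ) : ℕ∞) := by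
  rcases le_total a.val b.val with h | h
  · have := edist_path h hb
    rw [max_eq_right h, min_eq_left h]
    exact this
  · have := edist_path h ha
    rw [max_eq_left h, min_eq_right h, SimpleGraph.edist_comm]
    exact this

theorem adj25 : G26.Adj 25 13 := by decide

theorem edist_25 (b : Fin 26) (hb : b.val ≤ 24) : G26.edist 25 b ≤ 24 := by
  have h1 : G26.edist 25 13 = 1 := SimpleGraph.edist_eq_one_iff_adj.2 adj25
  have h2 : G26.edist 13 b ≤ 23 := by
    refine (edist_path' 13 b (by decide) hb).trans ?_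
    have : (max (13 : Fin 26).val b.val - min (13 : Fin 26).val b.val : ℕ) ≤ 23 := by
      have h13 : (13 : Fin 26).val = 13 := rfl
      rw [h13]
      omega
    exact_mod_cast this
  calc G26.edist 25 b ≤ G26.edist 25 13 + G26.edist 13 b := SimpleGraph.edist_triangle
    _ ≤ 1 + 23 := add_le_add h1.le h2
    _ = 24 := by norm_num

theorem ediam_le : G26.ediam ≤ 24 := by
  apply SimpleGraph.ediam_le_of_edist_le
  intro u v
  by_cases hu : u.val ≤ 24
  · by_cases hv : v.val ≤ 24
    · refine (edist_path' u v hu hv).trans ?_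
      have : (max u.val v.val - min u.val v.val : ℕ) ≤ 24 := by omega
      exact_mod_cast this
    · have e : v = 25 := by
        apply Fin.ext
        show v.val = 25
        omega
      rw [e, SimpleGraph.edist_comm]
      exact edist_25 u hu
  · have e : u = 25 := by
      apply Fin.ext
      show u.val = 25
      omega
    rw [e]
    by_cases hv : v.val ≤ 24
    · exact edist_25 v hv
    · have e' : v = 25 := by
        apply Fin.ext
        show v.val = 25
        omega
      rw [e', SimpleGraph.edist_self]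
      exact bot_le

theorem le_ediam : (24 : ℕ∞) ≤ G26.ediam := by
  refine le_trans ?_ (SimpleGraph.edist_le_ediam (u := 0) (v := 24))
  rw [SimpleGraph.edist_eq_sInf]
  apply le_sInf
  rintro _ ⟨w, rfl⟩
  have := walk_pos w
  have h0 : pos 0 = 0 := rfl
  have h24 : pos 24 = 24 := rfl
  rw [h0, h24] at this
  have h : 24 ≤ w.length := by omega
  show ((24 : ℕ) : ℕ∞) ≤ ((w.length : ℕ) : ℕ∞)
  exact Nat.cast_le.2 h

theorem diam_eq : G26.diam = 24 := by
  have : G26.ediam = 24 := le_antisymm ediam_le le_ediam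
  unfold SimpleGraph.diam
  rw [this]
  rfl

theorem conn : G26.Connected := by
  apply SimpleGraph.connected_of_ediam_ne_top
  rw [le_antisymm ediam_le le_ediam]
  decide

/-! ### the path on 25 vertices -/

theorem card_codes :
    ((Finset.univ : Finset (Fin 4 × Finset (Fin 4))).filter
      (fun p => p.1 ∉ p.2 ∧ 1 ≤ p.2.card ∧ p.2.card ≤ 2)).card = 24 := by
  decide +kernel

theorem not_nl_path : ¬ NLColorable (SimpleGraph.pathGraph 25) 4 := by
  classical
  rintro ⟨c, h1, h2⟩
  let S : Fin 25 → Finset (Fin 4) := fun v =>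
    Finset.univ.filter (fun x => ∃ w, (SimpleGraph.pathGraph 25).Adj v w ∧ c w = x)
  have hS : ∀ v x, x ∈ S v ↔ ∃ w, (SimpleGraph.pathGraph 25).Adj v w ∧ c w = x := by
    intro v x
    simp [S]
  have hinj : Set.InjOn (fun v => (c v, S v)) ((Finset.univ : Finset (Fin 25)) : Set (Fin 25)) := by
    intro u _ v _ huv
    by_contra hne
    rw [Prod.mk.injEq] at huv
    refine h2 u v hne huv.1 ?_
    ext x
    have := Finset.ext_iff.1 huv.2 x
    rw [hS, hS] at this
    simpa [Set.mem_image, SimpleGraph.mem_neighborSet] using this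
  have hmaps : Set.MapsTo (fun v => (c v, S v)) ((Finset.univ : Finset (Fin 25)) : Set (Fin 25))
      ((Finset.univ : Finset (Fin 4 × Finset (Fin 4))).filter
      (fun p => p.1 ∉ p.2 ∧ 1 ≤ p.2.card ∧ p.2.card ≤ 2)) := by
    intro v _
    rw [Finset.mem_coe, Finset.mem_filter]
    refine ⟨Finset.mem_univ _, ?_, ?_, ?_⟩
    · show c v ∉ S v
      rw [hS]
      rintro ⟨w, hw, he⟩
      exact h1 v w hw he.symm
    · show 1 ≤ (S v).card
      rw [Nat.one_le_iff_ne_zero, Ne, Finset.card_eq_zero]
      intro h0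
      by_cases hv : v.val = 0
      · have hm : c 1 ∈ S v := (hS v _).2 ⟨1, by
          rw [SimpleGraph.pathGraph_adj]
          left
          show v.val + 1 = 1
          omega, rfl⟩
        rw [h0] at hm
        simp at hm
      · have hm : c ⟨v.val - 1, by omega⟩ ∈ S v := (hS v _).2 ⟨⟨v.val - 1, by omega⟩, by
          rw [SimpleGraph.pathGraph_adj]
          right
          show v.val - 1 + 1 = v.val
          omega, rfl⟩
        rw [h0] at hm
        simp at hm
    · show (S v).card ≤ 2
      have hsub : S v ⊆ {c ⟨v.val - 1, by omega⟩, c ⟨min (v.val + 1) 24, by omega⟩} := by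
        intro x hx
        obtain ⟨w, hw, he⟩ := (hS v x).1 hx
        rw [SimpleGraph.pathGraph_adj] at hw
        rw [Finset.mem_insert, Finset.mem_singleton]
        rcases hw with hw | hw
        · right
          rw [← he]
          congr 1
          apply Fin.ext
          show w.val = min (v.val + 1) 24
          omega
        · left
          rw [← he]
          congr 1
          apply Fin.ext
          show w.val = v.val - 1
          omega
      exact (Finset.card_le_card hsub).trans Finset.card_le_two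
  have := Finset.card_le_card_of_injOn _ hmaps hinj
  rw [card_codes, Finset.card_univ, Fintype.card_fin] at this
  omega

theorem nl_path : NLColorable (SimpleGraph.pathGraph 25) 25 :=
  ⟨id, fun _ _ h => h.ne, fun _ _ huv hc => absurd hc huv⟩

theorem five_le : 5 ≤ chiNL (SimpleGraph.pathGraph 25) := by
  by_contra hlt
  have hne : {k : ℕ | NLColorable (SimpleGraph.pathGraph 25) k}.Nonempty := ⟨25, nl_path⟩
  have := Nat.sInf_mem hne
  exact not_nl_path (mono (by unfold chiNL at hlt; omega) this)

/-- There is a connected graph `G` on 26 vertices of diameter 24 with `chiNL G ≤ 4`, while the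
path on 25 vertices (whose diameter is also 24) has `chiNL ≥ 5`.  In particular
`chiNL G < chiNL (P_{diam G + 1})`. -/
theorem result : ∃ G : SimpleGraph (Fin 26), G.Connected ∧ G.diam = 24 ∧ chiNL G ≤ 4 ∧
    5 ≤ chiNL (SimpleGraph.pathGraph 25) ∧
    chiNL G < chiNL (SimpleGraph.pathGraph (G.diam + 1)) := by
  have h4 : chiNL G26 ≤ 4 := Nat.sInf_le nl4
  refine ⟨G26, conn, diam_eq, h4, five_le, ?_⟩
  rw [diam_eq]
  have := five_le
  show chiNL G26 < chiNL (SimpleGraph.pathGraph 25)
  omega

end Pool.Agent.Results.MP_fdbc88_co.DiameterTwentyFour
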